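import Pool.Agent.Y386.IR.Stm2

/-!
# The imperfection ratio: `K_{a/b}[G]` is computable in polynomial time
-/

set_option autoImplicit false

namespace Pool.Agent.Y79.IR

open Pool.Agent.NPC Pool.Agent.H692R2 Pool.Agent.Y386.IR

/-- The entry of a matrix. -/
def ent (M : List (List Bool)) (i j : ℕ) : Bool := (M.getD i []).getD j false

theorem length_matrix (G : FinGraph) : G.matrix.length = G.n := by
  simp [FinGraph.matrix]

theorem ent_matrix (G : FinGraph) (i j : ℕ) (hi : i < G.n) (hj : j < G.n) :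
    ent G.matrix i j = true ↔ G.graph.Adj ⟨i, hi⟩ ⟨j, hj⟩ := by
  classical
  simp [ent, FinGraph.matrix, List.getD_eq_getElem?_getD, hi, hj]

/-- The matrix is computable in polynomial time. -/
theorem poly_matrix : NPC.Poly (fun G : FinGraph => G.matrix) :=
  show NPC.Poly (fun G : FinGraph => G) from NPC.Poly.id

theorem CA_poly2 {α : Type} [TEnc α] {p q f g : α → ℕ} (hp : NPC.Poly p) (hq : NPC.Poly q)
    (hf : NPC.Poly f) (hg : NPC.Poly g) :
    NPC.Poly (fun z => decide (CA (p z) (q z) (f z) (g z))) := by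
  have h : NPC.Poly (fun z => decide ((f z + q z ≤ g z ∧ g z + q z ≤ f z + p z) ∨
      (g z + q z ≤ f z ∧ f z + q z ≤ g z + p z))) :=
    NPC.Poly.decide_or
      (NPC.Poly.decide_and (NPC.Poly.decide_le (NPC.Poly.add hf hq) hg)
        (NPC.Poly.decide_le (NPC.Poly.add hg hq) (NPC.Poly.add hf hp)))
      (NPC.Poly.decide_and (NPC.Poly.decide_le (NPC.Poly.add hg hq) hf)
        (NPC.Poly.decide_le (NPC.Poly.add hf hq) (NPC.Poly.add hg hp)))
  exact h.congr fun z => by unfold CA; congr

/-- The adjacency relation of `K_{a/b}[G]` as a function. -/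
noncomputable def lexB (a b : ℕ) (G : FinGraph) (m m' : ℕ) : Bool :=
  decide ((m / G.matrix.length = m' / G.matrix.length ∧
      ent G.matrix (m % G.matrix.length) (m' % G.matrix.length) = true) ∨
    (¬ (m / G.matrix.length = m' / G.matrix.length) ∧
      CA a b (m / G.matrix.length) (m' / G.matrix.length)))

theorem adj_iff (a b : ℕ) (G : FinGraph) (i j : Fin (a * G.n)) :
    ((lexK a b G.graph).comap finProdFinEquiv.symm).Adj i j ↔ lexB a b G i j = true := by
  have hn : 0 < G.n := by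
    rcases Nat.eq_zero_or_pos G.n with h | h
    · have := i.2
      simp only [h] at this
      omega
    · exact h
  unfold lexB
  rw [decide_eq_true_iff, length_matrix, ent_matrix G _ _ (Nat.mod_lt _ hn) (Nat.mod_lt _ hn)]
  rw [SimpleGraph.comap_adj]
  unfold lexK
  simp only [finProdFinEquiv_symm_apply]
  refine or_congr (and_congr ?_ Iff.rfl) (and_congr (not_congr ?_) ?_)
  · rw [Fin.ext_iff, Fin.coe_divNat, Fin.coe_divNat]
  · rw [Fin.ext_iff, Fin.coe_divNat, Fin.coe_divNat]
  · rw [Fin.coe_divNat, Fin.coe_divNat]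

theorem t_POLY2 : S_POLY2 := by
  intro α _ a b G ha hb hG
  have hMz : NPC.Poly (fun z => (G z).matrix) := poly_matrix.comp hG
  have hN : UPoly (fun z => a z * (G z).n) := by
    have h := UPoly.mul ha (UPoly.length hMz)
    have e : (fun z => a z * (G z).matrix.length) = fun z => a z * (G z).n := by
      funext z
      rw [length_matrix]
    rw [e] at h
    exact h
  refine poly_finGraph (N := fun z => a z * (G z).n) (b := fun z => lexB (a z) (b z) (G z))
    (G := fun z => (lexK (a z) (b z) (G z).graph).comap finProdFinEquiv.symm) hN ?_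
    (fun z i j => adj_iff (a z) (b z) (G z) i j)
  unfold lexB
  have hz : NPC.Poly (fun p : (α × ℕ) × ℕ => p.1.1) := NPC.Poly.fst (NPC.Poly.fst NPC.Poly.id)
  have hM' : NPC.Poly (fun p : (α × ℕ) × ℕ => (G p.1.1).matrix) := hMz.comp hz
  have hL : NPC.Poly (fun p : (α × ℕ) × ℕ => (G p.1.1).matrix.length) := NPC.Poly.length hM'
  have ha' : NPC.Poly (fun p : (α × ℕ) × ℕ => a p.1.1) := ha.toPoly.comp hz
  have hb' : NPC.Poly (fun p : (α × ℕ) × ℕ => b p.1.1) := hb.comp hz
  have hm : NPC.Poly (fun p : (α × ℕ) × ℕ => p.1.2) :=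
    NPC.Poly.snd (NPC.Poly.fst NPC.Poly.id)
  have hm' : NPC.Poly (fun p : (α × ℕ) × ℕ => p.2) := NPC.Poly.snd NPC.Poly.id
  have hd : ∀ {f : (α × ℕ) × ℕ → ℕ}, NPC.Poly f →
      NPC.Poly (fun p => f p / (G p.1.1).matrix.length) := fun hf => NPC.Poly.div hf hL
  have hr : ∀ {f : (α × ℕ) × ℕ → ℕ}, NPC.Poly f →
      NPC.Poly (fun p => f p % (G p.1.1).matrix.length) := fun hf => NPC.Poly.mod hf hL
  have he : NPC.Poly (fun p : (α × ℕ) × ℕ =>
      ent (G p.1.1).matrix (p.1.2 % (G p.1.1).matrix.length)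
        (p.2 % (G p.1.1).matrix.length)) := by
    unfold ent
    exact NPC.Poly.getD (NPC.Poly.getD hM' (hr hm) (NPC.Poly.const [])) (hr hm')
      (NPC.Poly.const false)
  exact NPC.Poly.decide_or (NPC.Poly.decide_and (NPC.Poly.decide_eq (hd hm) (hd hm'))
    (NPC.Poly.decide_eq he (NPC.Poly.const true)))
    (NPC.Poly.decide_and (NPC.Poly.decide_not (NPC.Poly.decide_eq (hd hm) (hd hm')))
      (CA_poly2 ha' hb' (hd hm) (hd hm')))

end Pool.Agent.Y79.IR
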